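import Pool.Agent.H964.QC.Mq
import Pool.Agent.H791.QC.FIN
import Pool.Agent.H784.QC.OVL

/-!
# Gaussian fluctuations of the log partition function in the whole quasi-critical regime: Q1

Answer to Q1: yes. For every law of the environment with mean 0, variance 1 and finite exponential moments
`E exp (β ω)`, `β ≥ 0`, and every quasi-critical sequence `β_N`,
`(log W_N (β_N) + λ_N^2 / 2) / λ_N → N (0, 1)` in distribution, with `λ_N^2 = log (log N / ϑ_N)`.

Outline. Write `Λ (t) = 1 / σ^2 - R_t`. The time interval is cut into blocks along which `R` grows by about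
`sqrt (Λ)`. Inside a block started from a weight that is spread out at the diffusive scale (bounds on its
overlaps after free evolution and on its second moment), the partition function averaged over the weight is
`1 + X` with `E X^2 = log (Λ / Λ') + O (log Λ / Λ)`, computed exactly by a renewal formula, and
`E X^4 = O (1 / Λ)`, by a supersolution in the ages for the four-replica correlations. The new weight is again
spread out except with probability `O (1 / Λ)`. A backward induction over the blocks on characteristic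
functions gives a quantitative central limit theorem: all errors sum up to `O (Λ_N^(-1/4))`, where
`Λ_N → ∞` exactly in the quasi-critical regime.
-/

set_option autoImplicit false

open MeasureTheory ProbabilityTheory Filter Topology

namespace Pool.Agent.Results.MP_f3a553_pr.QuasiCriticalCLT

/-- The four steps of the simple random walk on `ℤ²`. -/
def step : Fin 4 → ℤ × ℤ := ![(1, 0), (-1, 0), (0, 1), (0, -1)]

/-- The position `S_k` of the path with the steps `s 0, s 1, ...` from the origin. -/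
def walk {N : ℕ} (s : Fin N → Fin 4) (k : ℕ) : ℤ × ℤ :=
  ∑ i ∈ Finset.univ.filter (fun i : Fin N => (i : ℕ) < k), step (s i)

/-- The expected overlap `R_N = E [∑_{n=1}^N 1_{S¹_n = S²_n}]` of two independent walks. -/
noncomputable def overlap (N : ℕ) : ℝ :=
  (1 / 4 ^ N) * (1 / 4 ^ N) * ∑ s : Fin N → Fin 4, ∑ s' : Fin N → Fin 4,
    (((Finset.Icc 1 N).filter (fun n => walk s n = walk s' n)).card : ℝ)

/-- `Λ (β) = log E [exp (β ω)]`. -/
noncomputable def logMgf (μ : Measure ℝ) (β : ℝ) : ℝ := Real.log (∫ x, Real.exp (β * x) ∂μ)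

/-- `W_N (β) = E [exp (∑_{n=1}^N (β ω (n, S_n) - Λ (β)))]`, the average over the `4^N` paths. -/
noncomputable def partitionFunction (μ : Measure ℝ) (β : ℝ) (N : ℕ) (w : ℕ × (ℤ × ℤ) → ℝ) : ℝ :=
  (1 / 4 ^ N) * ∑ s : Fin N → Fin 4,
    Real.exp (∑ k : Fin N, (β * w ((k : ℕ) + 1, walk s ((k : ℕ) + 1)) - logMgf μ β))

/-- The quasi-critical regime: `σ_N^2 = (1 / R_N) (1 - ϑ_N / log N)` with `σ_N^2 = exp (Λ_2 (β_N)) - 1`,
`Λ_2 (β) = Λ (2 β) - 2 Λ (β)`, `ϑ_N → ∞` and `ϑ_N / log N → 0`. -/
structure IsQuasiCritical (μ : Measure ℝ) (β ϑ : ℕ → ℝ) : Prop where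
  nonneg : ∀ N, 0 ≤ β N
  window : ∀ᶠ N : ℕ in atTop,
    Real.exp (logMgf μ (2 * β N) - 2 * logMgf μ (β N)) - 1 = 1 / overlap N * (1 - ϑ N / Real.log N)
  large : Tendsto ϑ atTop atTop
  small : Tendsto (fun N : ℕ => ϑ N / Real.log N) atTop (𝓝 0)

/-- Let `μ` have mean `0`, variance `1` and `∫ exp (b x) dμ < ∞` for all `b ≥ 0`, let `ω` be i.i.d. with law
`μ`, let `(β_N)` be quasi-critical and `λ_N^2 = log (log N / ϑ_N)`. Then
`c_N (log W_N (β_N) - d_N) → N (0, 1)` in distribution, with `c_N = 1 / λ_N` and `d_N = -λ_N^2 / 2`. -/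
theorem result (μ : Measure ℝ) [IsProbabilityMeasure μ]
    (hexp : ∀ b : ℝ, 0 ≤ b → Integrable (fun x : ℝ => Real.exp (b * x)) μ)
    (hmean : ∫ x, x ∂μ = 0) (hvar : ∫ x, x ^ 2 ∂μ = 1)
    (Ω : Type) [MeasurableSpace Ω] (P : Measure Ω) [IsProbabilityMeasure P]
    (ω : ℕ × (ℤ × ℤ) → Ω → ℝ) (hmeas : ∀ p, Measurable (ω p)) (hind : iIndepFun ω P)
    (hlaw : ∀ p, P.map (ω p) = μ)
    (β ϑ : ℕ → ℝ) (hq : IsQuasiCritical μ β ϑ) (c d : ℕ → ℝ)
    (hc : ∀ N : ℕ, c N = 1 / Real.sqrt (Real.log (Real.log N / ϑ N)))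
    (hd : ∀ N : ℕ, d N = -(1 / 2 * Real.log (Real.log N / ϑ N))) :
    TendstoInDistribution
      (fun (N : ℕ) (x : Ω) =>
        c N * (Real.log (partitionFunction μ (β N) N (fun p => ω p x)) - d N))
      atTop (fun x : ℝ => x) (fun _ => P) (gaussianReal 0 1) := by
  have hov : ∀ N, overlap N = Pool.Agent.H964.QC.RR N := fun N => Pool.Agent.H784.QC.t_OVL N
  have hPF : ∀ (N : ℕ) (w : ℕ × (ℤ × ℤ) → ℝ), partitionFunction μ (β N) N w =
      Pool.Agent.H964.QC.PF (Pool.Agent.H964.QC.Lam μ (β N)) (β N) N w := fun N w => rfl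
  have hRR := Pool.Agent.H964.QC.a_RR
  -- the overlap is positive for `N ≥ 1`
  have hRpos : ∀ N : ℕ, 1 ≤ N → 0 < Pool.Agent.H964.QC.RR N := by
    intro N hN
    unfold Pool.Agent.H964.QC.RR
    exact Finset.sum_pos (fun i _ => hRR.1 i) ⟨1, by simp [hN]⟩
  have hs : ∀ᶠ N : ℕ in atTop,
      1 - Pool.Agent.H964.QC.RR N * Pool.Agent.H964.QC.sig2 μ (β N) = ϑ N / Real.log N := by
    filter_upwards [hq.window, eventually_ge_atTop 1] with N h1 h2
    have h3 : Pool.Agent.H964.QC.sig2 μ (β N) = 1 / overlap N * (1 - ϑ N / Real.log N) := h1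
    have h4 := hRpos N h2
    rw [h3, hov]
    field_simp
    ring
  have hlogN : Tendsto (fun N : ℕ => Real.log (N : ℝ)) atTop atTop :=
    Real.tendsto_log_atTop.comp tendsto_natCast_atTop_atTop
  have hT1 : Tendsto (fun N : ℕ => Real.log N *
      (1 - Pool.Agent.H964.QC.RR N * Pool.Agent.H964.QC.sig2 μ (β N))) atTop atTop := by
    refine hq.large.congr' ?_
    filter_upwards [hs, hlogN.eventually_gt_atTop 0] with N h1 h2
    rw [h1]
    field_simp
  have hT2 : Tendsto (fun N : ℕ =>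
      1 - Pool.Agent.H964.QC.RR N * Pool.Agent.H964.QC.sig2 μ (β N)) atTop (𝓝 0) := by
    refine hq.small.congr' ?_
    filter_upwards [hs] with N h1
    rw [h1]
  have main := Pool.Agent.H791.QC.t_FIN Pool.Agent.H964.QC.a_MQ Pool.Agent.H964.QC.a_TOR
    Pool.Agent.H964.QC.a_LAW Pool.Agent.H964.QC.a_LINK Pool.Agent.H964.QC.a_RR Pool.Agent.H964.QC.a_MEAS
    μ hexp hmean hvar Ω P ω hmeas hind hlaw β hq.nonneg hT1 hT2
  have hmW : ∀ N : ℕ, Measurable (fun x : Ω =>
      c N * (Real.log (partitionFunction μ (β N) N (fun p => ω p x)) - d N)) := by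
    intro N
    have h1 : Measurable (fun x : Ω => partitionFunction μ (β N) N (fun p => ω p x)) :=
      Pool.Agent.H791.QC.measurable_PF ω hmeas (Pool.Agent.H964.QC.Lam μ (β N)) (β N) N
    exact ((Real.measurable_log.comp h1).sub_const _).const_mul _
  have heq : ∀ᶠ N : ℕ in atTop, (fun x : Ω =>
      (Real.log (Pool.Agent.H964.QC.PF (Pool.Agent.H964.QC.Lam μ (β N)) (β N) N (fun p => ω p x))
        - 1 / 2 * Real.log (1 - Pool.Agent.H964.QC.RR N * Pool.Agent.H964.QC.sig2 μ (β N))) /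
        Real.sqrt (-Real.log (1 - Pool.Agent.H964.QC.RR N * Pool.Agent.H964.QC.sig2 μ (β N)))) =
      (fun x : Ω => c N * (Real.log (partitionFunction μ (β N) N (fun p => ω p x)) - d N)) := by
    filter_upwards [hs] with N h1
    funext x
    have h2 : Real.log (ϑ N / Real.log N) = -Real.log (Real.log N / ϑ N) := by
      rw [← Real.log_inv, inv_div]
    rw [h1, h2, hc, hd, hPF]
    ring_nf
  refine ⟨fun N => (hmW N).aemeasurable, measurable_id.aemeasurable, ?_⟩
  refine main.tendsto.congr' ?_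
  filter_upwards [heq] with N h1
  apply Subtype.ext
  show P.map _ = P.map _
  rw [h1]

end Pool.Agent.Results.MP_f3a553_pr.QuasiCriticalCLT
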